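import Pool.Agent.BOX.StmtsG

set_option autoImplicit false

namespace Pool.Agent.BOX.H27

open Set Filter Topology MeasureTheory

/-- the change of variables -/
def ee (Γ : Type) [AddCommGroup Γ] : Γ × (Γ × Γ) ≃ (Γ × Γ) × Γ where
  toFun x := (x.2, x.1 - x.2.1 - x.2.2)
  invFun y := (y.2 + y.1.2 + y.1.1, y.1)
  left_inv x := by
    ext
    · show x.1 - x.2.1 - x.2.2 + x.2.2 + x.2.1 = x.1
      abel
    · rfl
    · rfl
  right_inv y := by
    ext
    · rfl
    · rfl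
    · show y.2 + y.1.2 + y.1.1 - y.1.1 - y.1.2 = y.2
      abel

theorem sm {Γ : Type} (χ K : Γ → ℂ) (hχ1 : ∀ g, ‖χ g‖ ≤ 1) (hK : Summable fun g => ‖K g‖) :
    Summable fun g => ‖K g * χ g‖ := by
  refine Summable.of_nonneg_of_le (fun g => norm_nonneg _) (fun g => ?_) hK
  rw [norm_mul]
  exact mul_le_of_le_one_right (norm_nonneg _) (hχ1 g)

theorem mm {Γ Δ : Type} (f : Γ → ℂ) (g : Δ → ℂ) (h1 : Summable fun x => ‖f x‖)
    (h2 : Summable fun x => ‖g x‖) :
    Summable fun x : Γ × Δ => ‖f x.1 * g x.2‖ := h1.mul_norm h2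

/-- the triple product for arbitrary absolutely summable families -/
theorem triple {Γ : Type} [AddCommGroup Γ] (f g h : Γ → ℂ) (h1 : Summable fun x => ‖f x‖)
    (h2 : Summable fun x => ‖g x‖) (h3 : Summable fun x => ‖h x‖) :
    (∑' x, f x) * (∑' x, g x) * (∑' x, h x) =
      ∑' x, ∑' y : Γ × Γ, f y.1 * g y.2 * h (x - y.1 - y.2) := by
  have h12 := mm f g h1 h2
  have h123 := mm (fun y : Γ × Γ => f y.1 * g y.2) h h12 h3
  rw [tsum_mul_tsum_of_summable_norm h1 h2, tsum_mul_tsum_of_summable_norm h12 h3]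
  rw [← (ee Γ).tsum_eq]
  have hs : Summable fun x : Γ × (Γ × Γ) =>
      (fun y : (Γ × Γ) × Γ => f y.1.1 * g y.1.2 * h y.2) (ee Γ x) :=
    (ee Γ).summable_iff.2 h123.of_norm
  exact hs.tsum_prod

theorem evm : EvmStmt := by
  intro Γ _ χ F G H hχ hχ1 hF hG hH
  rw [triple (fun g => F g * χ g) (fun g => G g * χ g) (fun g => H g * χ g) (sm χ F hχ1 hF)
    (sm χ G hχ1 hG) (sm χ H hχ1 hH)]
  refine tsum_congr fun g => ?_
  unfold T3
  rw [← tsum_mul_right]
  refine tsum_congr fun h => ?_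
  show F h.1 * χ h.1 * (G h.2 * χ h.2) * (H (g - h.1 - h.2) * χ (g - h.1 - h.2)) =
    F h.1 * G h.2 * H (g - h.1 - h.2) * χ g
  have e : χ g = χ h.1 * χ h.2 * χ (g - h.1 - h.2) := by
    rw [← hχ, ← hχ]
    congr 1
    abel
  rw [e]
  ring

end Pool.Agent.BOX.H27
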