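import Pool.Agent.BOX.StmtsN

/-!
# Row PRN of squad BOX (MP_be01ff_an): preparations (the weighted `l^1` space)
-/

set_option autoImplicit false

namespace Pool.Agent.BOX.H27

open Set Filter Topology

noncomputable section

/-- the space -/
abbrev X := lp (fun _ : ℤ => ℝ) 1

/-- the radius -/
def rr : ℝ := 101 / 100

/-- the weight -/
def wt (n : ℤ) : ℝ := rr ^ n.natAbs

theorem rr1 : 1 ≤ rr := by unfold rr; norm_num

theorem wt1 (n : ℤ) : 1 ≤ wt n := one_le_pow₀ rr1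

theorem wtp (n : ℤ) : 0 < wt n := lt_of_lt_of_le one_pos (wt1 n)

theorem wtW : Wt wt := by
  refine ⟨wt1, fun g h => ?_⟩
  unfold wt
  rw [← pow_add]
  exact pow_le_pow_right₀ rr1 (Int.natAbs_add_le g h)

theorem norm_X (x : X) : ‖x‖ = ∑' n, ‖x n‖ := by
  have := lp.norm_eq_tsum_rpow (p := 1) (by norm_num) x
  simpa using this

theorem summable_X (x : X) : Summable fun n => ‖x n‖ := by
  have := (lp.memℓp x).summable (by norm_num)
  simpa using this

theorem coord (x : X) (n : ℤ) : |x n| ≤ ‖x‖ := by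
  rw [norm_X]
  exact (summable_X x).le_tsum n (fun _ _ => norm_nonneg _)

/-- an element of the space -/
def mk (F : ℤ → ℝ) (h : Summable fun n => ‖F n‖) : X := ⟨F, memℓp_gen (by simpa using h)⟩

theorem mk_apply (F : ℤ → ℝ) (h : Summable fun n => ‖F n‖) (n : ℤ) : mk F h n = F n := rfl

theorem norm_mk (F : ℤ → ℝ) (h : Summable fun n => ‖F n‖) : ‖mk F h‖ = ∑' n, ‖F n‖ := norm_X _

/-- removal of the weight -/
def gg (x : X) (n : ℤ) : ℝ := x n / wt n

theorem gg_wt (x : X) (n : ℤ) : ‖gg x n‖ * wt n = ‖x n‖ := by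
  unfold gg
  rw [norm_div, Real.norm_of_nonneg (wtp n).le, div_mul_cancel₀ _ (wtp n).ne']

theorem gg_sm (x : X) : Sm wt (gg x) := by
  unfold Sm
  simp only [gg_wt]
  exact summable_X x

theorem gg_nm (x : X) : nm wt (gg x) = ‖x‖ := by
  unfold nm
  simp only [gg_wt]
  exact (norm_X x).symm

theorem gg_add (x y : X) (n : ℤ) : gg (x + y) n = gg x n + gg y n := by
  unfold gg
  rw [lp.coeFn_add, Pi.add_apply, add_div]

/-! ## The trilinear map -/

theorem T3_sum (t3a : T3aStmt) (x y z : X) (n : ℤ) :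
    Summable fun h : ℤ × ℤ => gg x h.1 * gg y h.2 * gg z (n - h.1 - h.2) := by
  have h := (t3a ℤ ℝ wt (gg x) (gg y) (gg z) wtW (gg_sm x) (gg_sm y) (gg_sm z)).1 n
  refine Summable.of_norm ?_
  simpa only [norm_mul] using h

theorem T3_sm (t3a : T3aStmt) (x y z : X) :
    Summable fun n => ‖T3 (gg x) (gg y) (gg z) n * wt n‖ := by
  have h := (t3a ℤ ℝ wt (gg x) (gg y) (gg z) wtW (gg_sm x) (gg_sm y) (gg_sm z)).2.1
  unfold Sm at h
  refine h.congr fun n => ?_
  rw [norm_mul, Real.norm_of_nonneg (wtp n).le]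

/-- the trilinear map on the space -/
def MM (t3a : T3aStmt) (x y z : X) : X :=
  mk (fun n => T3 (gg x) (gg y) (gg z) n * wt n) (T3_sm t3a x y z)

theorem gg_MM (t3a : T3aStmt) (x y z : X) (n : ℤ) :
    gg (MM t3a x y z) n = T3 (gg x) (gg y) (gg z) n := by
  unfold gg MM
  rw [mk_apply, mul_div_cancel_right₀ _ (wtp n).ne']
  rfl

theorem norm_MM (t3a : T3aStmt) (x y z : X) : ‖MM t3a x y z‖ ≤ ‖x‖ * ‖y‖ * ‖z‖ := by
  have h := (t3a ℤ ℝ wt (gg x) (gg y) (gg z) wtW (gg_sm x) (gg_sm y) (gg_sm z)).2.2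
  rw [gg_nm, gg_nm, gg_nm] at h
  refine le_of_eq_of_le ?_ h
  unfold MM nm
  rw [norm_mk]
  refine tsum_congr fun n => ?_
  rw [norm_mul, Real.norm_of_nonneg (wtp n).le]

theorem T3_add1 (t3a : T3aStmt) (x x' y z : X) (n : ℤ) :
    T3 (gg (x + x')) (gg y) (gg z) n = T3 (gg x) (gg y) (gg z) n + T3 (gg x') (gg y) (gg z) n := by
  unfold T3
  rw [← (T3_sum t3a x y z n).tsum_add (T3_sum t3a x' y z n)]
  refine tsum_congr fun h => ?_
  rw [gg_add]
  ring

theorem T3_add2 (t3a : T3aStmt) (x y y' z : X) (n : ℤ) :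
    T3 (gg x) (gg (y + y')) (gg z) n = T3 (gg x) (gg y) (gg z) n + T3 (gg x) (gg y') (gg z) n := by
  unfold T3
  rw [← (T3_sum t3a x y z n).tsum_add (T3_sum t3a x y' z n)]
  refine tsum_congr fun h => ?_
  rw [gg_add]
  ring

theorem T3_add3 (t3a : T3aStmt) (x y z z' : X) (n : ℤ) :
    T3 (gg x) (gg y) (gg (z + z')) n = T3 (gg x) (gg y) (gg z) n + T3 (gg x) (gg y) (gg z') n := by
  unfold T3
  rw [← (T3_sum t3a x y z n).tsum_add (T3_sum t3a x y z' n)]
  refine tsum_congr fun h => ?_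
  rw [gg_add]
  ring

theorem MM_ext {u v : X} (h : ∀ n, gg u n = gg v n) : u = v := by
  ext n
  have := h n
  unfold gg at this
  exact (div_left_inj' (wtp n).ne').1 this

theorem MM_add1 (t3a : T3aStmt) (x x' y z : X) :
    MM t3a (x + x') y z = MM t3a x y z + MM t3a x' y z :=
  MM_ext fun n => by rw [gg_add, gg_MM, gg_MM, gg_MM, T3_add1 t3a]

theorem MM_add2 (t3a : T3aStmt) (x y y' z : X) :
    MM t3a x (y + y') z = MM t3a x y z + MM t3a x y' z :=
  MM_ext fun n => by rw [gg_add, gg_MM, gg_MM, gg_MM, T3_add2 t3a]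

theorem MM_add3 (t3a : T3aStmt) (x y z z' : X) :
    MM t3a x y (z + z') = MM t3a x y z + MM t3a x y z' :=
  MM_ext fun n => by rw [gg_add, gg_MM, gg_MM, gg_MM, T3_add3 t3a]

/-! ## Symmetries -/

theorem T3_sw12 (F G H : ℤ → ℝ) (n : ℤ) : T3 F G H n = T3 G F H n := by
  unfold T3
  rw [← (Equiv.prodComm ℤ ℤ).tsum_eq]
  refine tsum_congr fun h => ?_
  show F h.2 * G h.1 * H (n - h.2 - h.1) = G h.1 * F h.2 * H (n - h.1 - h.2)
  rw [show n - h.2 - h.1 = n - h.1 - h.2 by ring]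
  ring

/-- the involution `(a, b) ↦ (a, n - a - b)` -/
def inv23 (n : ℤ) : ℤ × ℤ ≃ ℤ × ℤ where
  toFun h := (h.1, n - h.1 - h.2)
  invFun h := (h.1, n - h.1 - h.2)
  left_inv h := by
    ext
    · rfl
    · show n - h.1 - (n - h.1 - h.2) = h.2
      ring
  right_inv h := by
    ext
    · rfl
    · show n - h.1 - (n - h.1 - h.2) = h.2
      ring

theorem T3_sw23 (F G H : ℤ → ℝ) (n : ℤ) : T3 F G H n = T3 F H G n := by
  unfold T3
  rw [← (inv23 n).tsum_eq]
  refine tsum_congr fun h => ?_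
  show F h.1 * G (n - h.1 - h.2) * H (n - h.1 - (n - h.1 - h.2)) = F h.1 * H h.2 * G (n - h.1 - h.2)
  rw [show n - h.1 - (n - h.1 - h.2) = h.2 by ring]
  ring

theorem T3_even (F : ℤ → ℝ) (hF : ∀ n, F (-n) = F n) (n : ℤ) : T3 F F F (-n) = T3 F F F n := by
  unfold T3
  rw [← (Equiv.neg (ℤ × ℤ)).tsum_eq]
  refine tsum_congr fun h => ?_
  show F (-h.1) * F (-h.2) * F (-n - -h.1 - -h.2) = F h.1 * F h.2 * F (n - h.1 - h.2)
  rw [hF, hF, show -n - -h.1 - -h.2 = -(n - h.1 - h.2) by ring, hF]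

/-! ## The main harmonic -/

/-- the sequence `e` -/
def e0 (n : ℤ) : ℝ := if n = 1 ∨ n = -1 then 1 else 0

theorem e0_one : e0 1 = 1 := by unfold e0; simp

theorem e0_neg_one : e0 (-1) = 1 := by unfold e0; simp

theorem e0_zero {n : ℤ} (h : n ≠ 1) (h' : n ≠ -1) : e0 n = 0 := by
  unfold e0
  rw [if_neg]
  rintro (h1 | h1)
  · exact h h1
  · exact h' h1

theorem e0_neg (n : ℤ) : e0 (-n) = e0 n := by
  unfold e0
  congr 1
  apply propext
  constructor
  · rintro (h | h)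
    · right; omega
    · left; omega
  · rintro (h | h)
    · right; omega
    · left; omega

theorem e0_sum : Summable fun n => ‖e0 n * wt n‖ := by
  refine summable_of_ne_finset_zero (s := {1, -1}) fun n hn => ?_
  simp only [Finset.mem_insert, Finset.mem_singleton, not_or] at hn
  rw [e0_zero hn.1 hn.2]
  simp

/-- `e` in the space -/
def eX : X := mk (fun n => e0 n * wt n) e0_sum

theorem gg_eX (n : ℤ) : gg eX n = e0 n := by
  unfold gg eX
  rw [mk_apply, mul_div_cancel_right₀ _ (wtp n).ne']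

theorem norm_eX : ‖eX‖ = 2 * rr := by
  unfold eX
  rw [norm_mk, tsum_eq_sum (s := {1, -1})]
  · rw [Finset.sum_pair (by norm_num), e0_one, e0_neg_one]
    have h1 : wt 1 = rr := by unfold wt; simp
    have h2 : wt (-1) = rr := by unfold wt; simp
    rw [h1, h2, one_mul, Real.norm_of_nonneg (by linarith [rr1])]
    ring
  · intro n hn
    simp only [Finset.mem_insert, Finset.mem_singleton, not_or] at hn
    rw [e0_zero hn.1 hn.2]
    simp

theorem T3_ee (H : ℤ → ℝ) (n : ℤ) : T3 e0 e0 H n = H (n - 2) + 2 * H n + H (n + 2) := by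
  unfold T3
  rw [tsum_eq_sum (s := {(1, 1), (1, -1), (-1, 1), (-1, -1)})]
  · rw [Finset.sum_insert (by decide), Finset.sum_insert (by decide),
      Finset.sum_insert (by decide), Finset.sum_singleton]
    simp only [e0_one, e0_neg_one, one_mul]
    rw [show n - 1 - 1 = n - 2 by ring, show n - 1 - -1 = n by ring, show n - -1 - 1 = n by ring,
      show n - -1 - -1 = n + 2 by ring]
    ring
  · rintro ⟨a, b⟩ hn
    simp only [Finset.mem_insert, Finset.mem_singleton, not_or, Prod.mk.injEq, not_and] at hn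
    obtain ⟨h1, h2, h3, h4⟩ := hn
    show e0 a * e0 b * _ = 0
    by_cases ha : a = 1
    · rw [e0_zero (h1 ha) (h2 ha)]; ring
    · by_cases ha' : a = -1
      · rw [e0_zero (h3 ha') (h4 ha')]; ring
      · rw [e0_zero ha ha']; ring

end

end Pool.Agent.BOX.H27
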