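import Pool.Agent.Helper27_BOX.PRN0

/-!
# Row PRN of squad BOX (MP_be01ff_an): the profile for `N ≥ 3`
-/

set_option autoImplicit false

namespace Pool.Agent.BOX.H27

open Set Filter Topology

noncomputable section

/-- the relevant indices -/
def PP (n : ℤ) : Prop := Odd n ∧ 3 ≤ |n|

theorem norm_le_of (x y : X) (h : ∀ n, |x n| ≤ |y n|) : ‖x‖ ≤ ‖y‖ := by
  rw [norm_X, norm_X]
  exact (summable_X x).tsum_le_tsum h (summable_X y)

open Classical in
theorem Pi0_sum (x : X) : Summable fun n => ‖(if PP n then x n else 0 : ℝ)‖ := by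
  refine Summable.of_nonneg_of_le (fun _ => norm_nonneg _) (fun n => ?_) (summable_X x)
  split_ifs
  · exact le_rfl
  · rw [norm_zero]
    exact norm_nonneg _

open Classical in
/-- the restriction to the relevant indices -/
def Pi0 (x : X) : X := mk (fun n => if PP n then x n else 0) (Pi0_sum x)

theorem Pi0_pos (x : X) {n : ℤ} (h : PP n) : Pi0 x n = x n := by
  unfold Pi0
  rw [mk_apply, if_pos h]

theorem Pi0_neg (x : X) {n : ℤ} (h : ¬ PP n) : Pi0 x n = 0 := by
  unfold Pi0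
  rw [mk_apply, if_neg h]

theorem norm_Pi0 (x : X) : ‖Pi0 x‖ ≤ ‖x‖ := by
  refine norm_le_of _ _ fun n => ?_
  by_cases h : PP n
  · rw [Pi0_pos x h]
  · rw [Pi0_neg x h, abs_zero]
    exact abs_nonneg _

theorem Pi0_sub (x y : X) : Pi0 (x - y) = Pi0 x - Pi0 y := by
  ext n
  rw [lp.coeFn_sub, Pi.sub_apply]
  by_cases h : PP n
  · rw [Pi0_pos _ h, Pi0_pos _ h, Pi0_pos _ h, lp.coeFn_sub, Pi.sub_apply]
  · rw [Pi0_neg _ h, Pi0_neg _ h, Pi0_neg _ h, sub_zero]

/-! ## The cube -/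

theorem smul_apply (c : ℝ) (x : X) (n : ℤ) : (c • x : X) n = c * x n := by
  rw [lp.coeFn_smul, Pi.smul_apply, smul_eq_mul]

theorem cube_le (x : X) (n : ℤ) : |x n ^ 3 / wt n ^ 2| ≤ ‖x‖ ^ 2 * |x n| := by
  have h1 := coord x n
  have h2 : (1 : ℝ) ≤ wt n ^ 2 := one_le_pow₀ (wt1 n)
  rw [abs_div, abs_of_nonneg (by positivity : (0 : ℝ) ≤ wt n ^ 2)]
  refine (div_le_self (abs_nonneg _) h2).trans ?_
  rw [abs_pow, pow_succ]
  have h3 := abs_nonneg (x n)
  gcongr

theorem cube_sum (x : X) : Summable fun n => ‖x n ^ 3 / wt n ^ 2‖ :=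
  Summable.of_nonneg_of_le (fun _ => norm_nonneg _) (fun n => cube_le x n)
    ((summable_X x).mul_left _)

/-- the cube -/
def QQ (x : X) : X := mk (fun n => x n ^ 3 / wt n ^ 2) (cube_sum x)

theorem QQ_apply (x : X) (n : ℤ) : QQ x n = x n ^ 3 / wt n ^ 2 := rfl

theorem norm_QQ (x : X) : ‖QQ x‖ ≤ ‖x‖ ^ 3 := by
  have h : ‖QQ x‖ ≤ ‖(‖x‖ ^ 2) • x‖ := by
    refine norm_le_of _ _ fun n => ?_
    rw [smul_apply, abs_mul, abs_of_nonneg (by positivity : (0 : ℝ) ≤ ‖x‖ ^ 2)]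
    exact cube_le x n
  rw [norm_smul, Real.norm_of_nonneg (by positivity)] at h
  exact h.trans (le_of_eq (by ring))

theorem QQ_lip (x y : X) (R : ℝ) (hx : ‖x‖ ≤ R) (hy : ‖y‖ ≤ R) :
    ‖QQ x - QQ y‖ ≤ 3 * R ^ 2 * ‖x - y‖ := by
  have hR : 0 ≤ R := (norm_nonneg x).trans hx
  have h : ‖QQ x - QQ y‖ ≤ ‖(3 * R ^ 2) • (x - y)‖ := by
    refine norm_le_of _ _ fun n => ?_
    rw [smul_apply, abs_mul, abs_of_nonneg (by positivity : (0 : ℝ) ≤ 3 * R ^ 2),
      lp.coeFn_sub, Pi.sub_apply, lp.coeFn_sub, Pi.sub_apply, QQ_apply, QQ_apply, ← sub_div,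
      abs_div, abs_of_nonneg (by positivity : (0 : ℝ) ≤ wt n ^ 2)]
    have h2 : (1 : ℝ) ≤ wt n ^ 2 := one_le_pow₀ (wt1 n)
    refine (div_le_self (abs_nonneg _) h2).trans ?_
    have h3 : x n ^ 3 - y n ^ 3 = (x n ^ 2 + x n * y n + y n ^ 2) * (x n - y n) := by ring
    rw [h3, abs_mul]
    refine mul_le_mul_of_nonneg_right ?_ (abs_nonneg _)
    have a1 := (coord x n).trans hx
    have a2 := (coord y n).trans hy
    have b1 := abs_nonneg (x n)
    have b2 := abs_nonneg (y n)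
    refine (abs_add_le _ _).trans ?_
    refine (add_le_add_left (abs_add_le _ _) _).trans ?_
    rw [abs_pow, abs_pow, abs_mul]
    nlinarith
  rw [norm_smul, Real.norm_of_nonneg (by positivity)] at h
  exact h

theorem gg_sub (x y : X) (n : ℤ) : gg (x - y) n = gg x n - gg y n := by
  unfold gg
  rw [lp.coeFn_sub, Pi.sub_apply, sub_div]

theorem gg_le (x : X) (n : ℤ) : |gg x n| ≤ ‖x‖ := by
  unfold gg
  rw [abs_div, abs_of_pos (wtp n)]
  exact (div_le_self (abs_nonneg _) (wt1 n)).trans (coord x n)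

/-! ## The trilinear map on the diagonal -/

section main

variable (t3a : T3aStmt)

/-- the diagonal -/
def TT3 (w : X) : X := MM t3a w w w

theorem TT3_sub (u v : X) :
    ‖TT3 t3a u - TT3 t3a v‖ ≤ ‖u - v‖ * (‖u‖ ^ 2 + ‖u‖ * ‖v‖ + ‖v‖ ^ 2) := by
  obtain ⟨d, hd⟩ : ∃ d, d = u - v := ⟨_, rfl⟩
  have hu : u = v + d := by rw [hd]; abel
  have h1 : MM t3a u u u = MM t3a v u u + MM t3a d u u := by
    have := MM_add1 t3a v d u u
    rwa [← hu] at this
  have h2 : MM t3a v u u = MM t3a v v u + MM t3a v d u := by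
    have := MM_add2 t3a v v d u
    rwa [← hu] at this
  have h3 : MM t3a v v u = MM t3a v v v + MM t3a v v d := by
    have := MM_add3 t3a v v v d
    rwa [← hu] at this
  have h4 : TT3 t3a u - TT3 t3a v = MM t3a v v d + MM t3a v d u + MM t3a d u u := by
    unfold TT3
    rw [h1, h2, h3]
    abel
  rw [h4, ← hd]
  refine (norm_add₃_le).trans ?_
  have n1 := norm_MM t3a v v d
  have n2 := norm_MM t3a v d u
  have n3 := norm_MM t3a d u u
  nlinarith

theorem norm_w (x : X) (hx : ‖x‖ ≤ 1 / 5) : ‖eX + x‖ ≤ 111 / 50 := by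
  refine (norm_add_le _ _).trans ?_
  rw [norm_eX]
  unfold rr
  linarith

theorem norm_e : ‖eX‖ = 101 / 50 := by
  rw [norm_eX]
  unfold rr
  norm_num

theorem lipT (x y : X) (hx : ‖x‖ ≤ 1 / 5) (hy : ‖y‖ ≤ 1 / 5) :
    ‖TT3 t3a (eX + x) - TT3 t3a (eX + y)‖ ≤ 148 / 10 * ‖x - y‖ := by
  have h := TT3_sub t3a (eX + x) (eX + y)
  rw [add_sub_add_left_eq_sub] at h
  refine h.trans ?_
  have a := norm_w x hx
  have b := norm_w y hy
  have a0 := norm_nonneg (eX + x)
  have b0 := norm_nonneg (eX + y)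
  rw [mul_comm]
  refine mul_le_mul_of_nonneg_right ?_ (norm_nonneg _)
  nlinarith

theorem difT (x : X) (hx : ‖x‖ ≤ 1 / 5) :
    ‖TT3 t3a (eX + x) - TT3 t3a eX‖ ≤ 27 / 10 := by
  have h := TT3_sub t3a (eX + x) eX
  rw [add_sub_cancel_left, norm_e] at h
  refine h.trans ?_
  have a := norm_w x hx
  have a0 := norm_nonneg (eX + x)
  have h1 : ‖eX + x‖ ^ 2 + ‖eX + x‖ * (101 / 50) + (101 / 50) ^ 2 ≤ 27 / 2 := by nlinarith
  have h2 : 0 ≤ ‖eX + x‖ ^ 2 + ‖eX + x‖ * (101 / 50) + (101 / 50) ^ 2 := by positivity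
  nlinarith [norm_nonneg x]

theorem T_eee (n : ℤ) : gg (TT3 t3a eX) n = e0 (n - 2) + 2 * e0 n + e0 (n + 2) := by
  unfold TT3
  rw [gg_MM, show gg eX = e0 from funext gg_eX, T3_ee]

theorem T_eee1 : gg (TT3 t3a eX) 1 = 3 := by
  rw [T_eee, e0_one, show (1 : ℤ) - 2 = -1 by norm_num, e0_neg_one,
    e0_zero (by norm_num) (by norm_num)]
  norm_num

theorem Pi_eee : ‖Pi0 (TT3 t3a eX)‖ ≤ 21 / 10 := by
  rw [norm_X, tsum_eq_sum (s := {3, -3})]
  · rw [Finset.sum_pair (by norm_num)]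
    have h1 : wt 3 = rr ^ 3 := rfl
    have h2 : wt (-3) = rr ^ 3 := rfl
    have v3 : (TT3 t3a eX) 3 = rr ^ 3 := by
      have h := T_eee t3a 3
      rw [show (3 : ℤ) - 2 = 1 by norm_num, e0_one, e0_zero (n := 3) (by norm_num) (by norm_num),
        e0_zero (n := 3 + 2) (by norm_num) (by norm_num)] at h
      unfold gg at h
      rw [div_eq_iff (wtp 3).ne', h1] at h
      rw [h]
      norm_num
    have v3' : (TT3 t3a eX) (-3) = rr ^ 3 := by
      have h := T_eee t3a (-3)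
      rw [show (-3 : ℤ) + 2 = -1 by norm_num, e0_neg_one,
        e0_zero (n := -3) (by norm_num) (by norm_num),
        e0_zero (n := -3 - 2) (by norm_num) (by norm_num)] at h
      unfold gg at h
      rw [div_eq_iff (wtp (-3)).ne', h2] at h
      rw [h]
      norm_num
    have p3 : PP 3 := ⟨by decide, by norm_num⟩
    have p3' : PP (-3) := ⟨by decide, by norm_num⟩
    have r0 : 0 ≤ rr ^ 3 := by unfold rr; positivity
    have e1 : ‖Pi0 (TT3 t3a eX) 3‖ ≤ rr ^ 3 := by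
      rw [Pi0_pos _ p3, v3, Real.norm_of_nonneg r0]
    have e2 : ‖Pi0 (TT3 t3a eX) (-3)‖ ≤ rr ^ 3 := by
      rw [Pi0_pos _ p3', v3', Real.norm_of_nonneg r0]
    have h3 : rr ^ 3 ≤ 105 / 100 := by unfold rr; norm_num
    linarith
  · intro n hn
    simp only [Finset.mem_insert, Finset.mem_singleton, not_or] at hn
    rw [norm_eq_zero]
    by_cases h : PP n
    · rw [Pi0_pos _ h]
      have h1 := T_eee t3a n
      unfold gg at h1
      rw [e0_zero, e0_zero, e0_zero] at h1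
      · have h2 : (TT3 t3a eX) n / wt n = 0 := by rw [h1]; norm_num
        rcases div_eq_zero_iff.1 h2 with h3 | h3
        · exact h3
        · exact absurd h3 (wtp n).ne'
      all_goals
        intro h0
        obtain ⟨⟨k, hk⟩, h3⟩ := h
        rcases le_abs.1 h3 with h4 | h4 <;> omega
    · exact Pi0_neg _ h

/-! ## The contraction -/

variable (c : ℝ)

/-- the denominator -/
def bb (x : X) : ℝ := c + gg (TT3 t3a (eX + x)) 1

/-- the map -/
def Ph (x : X) : X := (bb t3a c x)⁻¹ • (Pi0 (TT3 t3a (eX + x)) + c • QQ x)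

theorem bb_ge (x : X) (hx : ‖x‖ ≤ 1 / 5) : c ≤ bb t3a c x := by
  unfold bb
  have h1 := gg_le (TT3 t3a (eX + x) - TT3 t3a eX) 1
  rw [gg_sub, T_eee1] at h1
  have h2 := difT t3a x hx
  have h3 := neg_abs_le (gg (TT3 t3a (eX + x)) 1 - 3)
  linarith

theorem Ph_norm (hc : 36 ≤ c) (x : X) (hx : ‖x‖ ≤ 1 / 5) : ‖Ph t3a c x‖ ≤ 1 / 5 := by
  have hb := bb_ge t3a c x hx
  have hb0 : 0 < bb t3a c x := by linarith
  unfold Ph
  rw [norm_smul, norm_inv, Real.norm_of_nonneg hb0.le, inv_mul_le_iff₀ hb0]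
  have h1 : ‖Pi0 (TT3 t3a (eX + x))‖ ≤ 48 / 10 := by
    have e : Pi0 (TT3 t3a (eX + x)) =
        Pi0 (TT3 t3a eX) + Pi0 (TT3 t3a (eX + x) - TT3 t3a eX) := by
      rw [Pi0_sub]
      abel
    rw [e]
    refine (norm_add_le _ _).trans ?_
    have a := Pi_eee t3a
    have b := (norm_Pi0 (TT3 t3a (eX + x) - TT3 t3a eX)).trans (difT t3a x hx)
    linarith
  have h2 : ‖c • QQ x‖ ≤ c * (1 / 125) := by
    rw [norm_smul, Real.norm_of_nonneg (by linarith)]
    refine mul_le_mul_of_nonneg_left ((norm_QQ x).trans ?_) (by linarith)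
    have := pow_le_pow_left₀ (norm_nonneg x) hx 3
    refine this.trans (le_of_eq (by norm_num))
  refine (norm_add_le _ _).trans ?_
  linarith

theorem Ph_lip (hc : 36 ≤ c) (x y : X) (hx : ‖x‖ ≤ 1 / 5) (hy : ‖y‖ ≤ 1 / 5) :
    ‖Ph t3a c x - Ph t3a c y‖ ≤ 7 / 10 * ‖x - y‖ := by
  have hb := bb_ge t3a c x hx
  have hb0 : 0 < bb t3a c x := by linarith
  have hb' := bb_ge t3a c y hy
  have hb0' : 0 < bb t3a c y := by linarith
  have e1 : bb t3a c x • Ph t3a c x = Pi0 (TT3 t3a (eX + x)) + c • QQ x := by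
    unfold Ph
    rw [smul_smul, mul_inv_cancel₀ hb0.ne', one_smul]
  have e2 : bb t3a c y • Ph t3a c y = Pi0 (TT3 t3a (eX + y)) + c • QQ y := by
    unfold Ph
    rw [smul_smul, mul_inv_cancel₀ hb0'.ne', one_smul]
  have e3 : bb t3a c x • (Ph t3a c x - Ph t3a c y) =
      Pi0 (TT3 t3a (eX + x) - TT3 t3a (eX + y)) + c • (QQ x - QQ y) +
        (bb t3a c y - bb t3a c x) • Ph t3a c y := by
    rw [smul_sub, e1, sub_smul, e2, Pi0_sub, smul_sub]
    abel
  have n1 : ‖Pi0 (TT3 t3a (eX + x) - TT3 t3a (eX + y))‖ ≤ 148 / 10 * ‖x - y‖ :=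
    (norm_Pi0 _).trans (lipT t3a x y hx hy)
  have n2 : ‖c • (QQ x - QQ y)‖ ≤ c * (3 / 25) * ‖x - y‖ := by
    rw [norm_smul, Real.norm_of_nonneg (by linarith), mul_assoc]
    refine mul_le_mul_of_nonneg_left ((QQ_lip x y (1 / 5) hx hy).trans (le_of_eq (by ring)))
      (by linarith)
  have n3 : ‖(bb t3a c y - bb t3a c x) • Ph t3a c y‖ ≤ 148 / 50 * ‖x - y‖ := by
    rw [norm_smul]
    have a : ‖bb t3a c y - bb t3a c x‖ ≤ 148 / 10 * ‖x - y‖ := by
      have : bb t3a c y - bb t3a c x = gg (TT3 t3a (eX + y) - TT3 t3a (eX + x)) 1 := by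
        unfold bb
        rw [gg_sub]
        ring
      rw [this, norm_sub_rev x y]
      exact (gg_le _ 1).trans (lipT t3a y x hy hx)
    have b := Ph_norm t3a c hc y hy
    have a0 := norm_nonneg (x - y)
    calc ‖bb t3a c y - bb t3a c x‖ * ‖Ph t3a c y‖ ≤ (148 / 10 * ‖x - y‖) * (1 / 5) :=
          mul_le_mul a b (norm_nonneg _) (by positivity)
      _ = 148 / 50 * ‖x - y‖ := by ring
  have n4 : bb t3a c x * ‖Ph t3a c x - Ph t3a c y‖ ≤
      (148 / 10 + c * (3 / 25) + 148 / 50) * ‖x - y‖ := by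
    have : bb t3a c x * ‖Ph t3a c x - Ph t3a c y‖ =
        ‖bb t3a c x • (Ph t3a c x - Ph t3a c y)‖ := by
      rw [norm_smul, Real.norm_of_nonneg hb0.le]
    rw [this, e3]
    refine (norm_add₃_le).trans ?_
    linarith
  have h0 := norm_nonneg (x - y)
  have h1 := norm_nonneg (Ph t3a c x - Ph t3a c y)
  have n5 : c * ‖Ph t3a c x - Ph t3a c y‖ ≤ c * (7 / 10 * ‖x - y‖) := by
    calc c * ‖Ph t3a c x - Ph t3a c y‖ ≤ bb t3a c x * ‖Ph t3a c x - Ph t3a c y‖ :=
          mul_le_mul_of_nonneg_right hb h1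
      _ ≤ (148 / 10 + c * (3 / 25) + 148 / 50) * ‖x - y‖ := n4
      _ ≤ (c * (7 / 10)) * ‖x - y‖ := mul_le_mul_of_nonneg_right (by linarith) h0
      _ = c * (7 / 10 * ‖x - y‖) := by ring
  exact le_of_mul_le_mul_left n5 (by linarith)

/-- the complete set -/
def SS : Set X := {x | ‖x‖ ≤ 1 / 5 ∧ (∀ n, x (-n) = x n) ∧ ∀ n, ¬ PP n → x n = 0}

theorem cont_coord (n : ℤ) : Continuous fun x : X => x n :=
  (continuous_apply n).comp lp.uniformContinuous_coe.continuous

theorem SS_closed : IsClosed SS := by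
  have h : SS = {x | ‖x‖ ≤ 1 / 5} ∩ ((⋂ n, {x | x (-n) = x n}) ∩
      ⋂ n, {x | ¬ PP n → x n = 0}) := by
    ext x
    simp only [SS, mem_ofPred_eq, mem_inter_iff, mem_iInter]
  rw [h]
  refine (isClosed_le continuous_norm continuous_const).inter ((isClosed_iInter fun n => ?_).inter
    (isClosed_iInter fun n => ?_))
  · exact isClosed_eq (cont_coord _) (cont_coord _)
  · by_cases hn : PP n
    · simp [hn]
    · simp only [hn, not_false_eq_true, true_imp_iff]
      exact isClosed_eq (cont_coord _) continuous_const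

theorem wt_neg (n : ℤ) : wt (-n) = wt n := by
  unfold wt
  rw [Int.natAbs_neg]

theorem PP_neg (n : ℤ) : PP (-n) ↔ PP n := by
  unfold PP
  rw [odd_neg, abs_neg]

theorem gg_w (x : X) (n : ℤ) : gg (eX + x) n = e0 n + gg x n := by
  rw [gg_add, gg_eX]

theorem w_even {x : X} (hx : x ∈ SS) (n : ℤ) : gg (eX + x) (-n) = gg (eX + x) n := by
  rw [gg_w, gg_w, e0_neg]
  unfold gg
  rw [wt_neg, hx.2.1 n]

theorem T_even {x : X} (hx : x ∈ SS) (n : ℤ) :
    (TT3 t3a (eX + x)) (-n) = (TT3 t3a (eX + x)) n := by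
  unfold TT3 MM
  rw [mk_apply, mk_apply, wt_neg, T3_even _ (w_even hx)]

theorem Ph_maps (hc : 36 ≤ c) : MapsTo (Ph t3a c) SS SS := by
  intro x hx
  refine ⟨Ph_norm t3a c hc x hx.1, fun n => ?_, fun n hn => ?_⟩
  · unfold Ph
    rw [smul_apply, smul_apply, lp.coeFn_add, Pi.add_apply, Pi.add_apply, smul_apply, smul_apply,
      QQ_apply, QQ_apply, wt_neg, hx.2.1 n]
    congr 2
    by_cases h : PP n
    · rw [Pi0_pos _ h, Pi0_pos _ ((PP_neg n).2 h), T_even t3a hx]
    · rw [Pi0_neg _ h, Pi0_neg _ (fun h' => h ((PP_neg n).1 h'))]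
  · unfold Ph
    rw [smul_apply, lp.coeFn_add, Pi.add_apply, smul_apply, QQ_apply, hx.2.2 n hn, Pi0_neg _ hn]
    simp

theorem exists_fix (hc : 36 ≤ c) : ∃ x ∈ SS, Ph t3a c x = x := by
  have hcomp : IsComplete SS := SS_closed.isComplete
  have h0 : (0 : X) ∈ SS := by
    refine ⟨by rw [norm_zero]; norm_num, fun n => rfl, fun n _ => rfl⟩
  have hcon : ContractingWith (7 / 10 : NNReal) ((Ph_maps t3a c hc).restrict (Ph t3a c) SS SS) := by
    constructor
    · rw [← NNReal.coe_lt_coe]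
      push_cast
      norm_num
    · refine LipschitzWith.of_dist_le_mul fun x y => ?_
      have h := Ph_lip t3a c hc x.1 y.1 x.2.1 y.2.1
      rw [Subtype.dist_eq, Subtype.dist_eq, dist_eq_norm, dist_eq_norm]
      push_cast
      exact h
  obtain ⟨y, hy, hfix, _⟩ := ContractingWith.exists_fixedPoint' hcomp (Ph_maps t3a c hc) hcon h0
    (edist_ne_top _ _)
  exact ⟨y, hy, hfix⟩

/-- lower bound of the cubic convolution at `1` -/
theorem T_one (x : X) (hx : x ∈ SS) : 2 ≤ gg (TT3 t3a (eX + x)) 1 := by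
  obtain ⟨w, hw⟩ : ∃ w, w = eX + x := ⟨_, rfl⟩
  have a1 : MM t3a w w w = MM t3a eX w w + MM t3a x w w := by
    have := MM_add1 t3a eX x w w
    rwa [← hw] at this
  have a2 : MM t3a eX w w = MM t3a eX eX w + MM t3a eX x w := by
    have := MM_add2 t3a eX eX x w
    rwa [← hw] at this
  have a3 : MM t3a eX eX w = MM t3a eX eX eX + MM t3a eX eX x := by
    have := MM_add3 t3a eX eX eX x
    rwa [← hw] at this
  have a4 : MM t3a eX x w = MM t3a eX x eX + MM t3a eX x x := by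
    have := MM_add3 t3a eX x eX x
    rwa [← hw] at this
  have a5 : MM t3a x w w = MM t3a x eX w + MM t3a x x w := by
    have := MM_add2 t3a x eX x w
    rwa [← hw] at this
  have a6 : MM t3a x eX w = MM t3a x eX eX + MM t3a x eX x := by
    have := MM_add3 t3a x eX eX x
    rwa [← hw] at this
  have hge : gg eX = e0 := funext gg_eX
  have x1 : gg x 1 = 0 := by
    unfold gg
    rw [hx.2.2 1 (fun h => absurd h.2 (by norm_num)), zero_div]
  have x1' : gg x (-1) = 0 := by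
    unfold gg
    rw [hx.2.2 (-1) (fun h => absurd h.2 (by norm_num)), zero_div]
  have v1 : gg (MM t3a eX eX x) 1 = gg x 3 := by
    rw [gg_MM, hge, T3_ee, show (1 : ℤ) - 2 = -1 by norm_num, show (1 : ℤ) + 2 = 3 by norm_num, x1,
      x1']
    ring
  have v2 : gg (MM t3a eX x eX) 1 = gg x 3 := by
    rw [gg_MM, T3_sw23, ← gg_MM t3a eX eX x, v1]
  have v3 : gg (MM t3a x eX eX) 1 = gg x 3 := by
    rw [gg_MM, T3_sw12, ← gg_MM t3a eX x eX, v2]
  have v0 : gg (MM t3a eX eX eX) 1 = 3 := T_eee1 t3a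
  have hn := hx.1
  have hwn : ‖w‖ ≤ 111 / 50 := by rw [hw]; exact norm_w x hn
  have r1 := (gg_le (MM t3a eX x x) 1).trans (norm_MM t3a eX x x)
  have r2 := (gg_le (MM t3a x eX x) 1).trans (norm_MM t3a x eX x)
  have r3 := (gg_le (MM t3a x x w) 1).trans (norm_MM t3a x x w)
  rw [norm_e] at r1 r2
  have x0 := norm_nonneg x
  have w0 := norm_nonneg w
  have xx : ‖x‖ * ‖x‖ ≤ 1 / 25 := by nlinarith
  have r3' : ‖x‖ * ‖x‖ * ‖w‖ ≤ 1 / 25 * (111 / 50) := mul_le_mul xx hwn w0 (by norm_num)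
  have r4 := (gg_le x 3).trans hn
  have s1 := neg_abs_le (gg (MM t3a eX x x) 1)
  have s2 := neg_abs_le (gg (MM t3a x eX x) 1)
  have s3 := neg_abs_le (gg (MM t3a x x w) 1)
  have s4 := neg_abs_le (gg x 3)
  have key : gg (TT3 t3a (eX + x)) 1 = 3 + 3 * gg x 3 + gg (MM t3a eX x x) 1 +
      gg (MM t3a x eX x) 1 + gg (MM t3a x x w) 1 := by
    rw [← hw]
    show gg (MM t3a w w w) 1 = _
    rw [a1, a2, a3, a4, a5, a6]
    simp only [gg_add]
    rw [v0, v1, v2, v3]
    ring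
  rw [key]
  nlinarith

end main

theorem cN_ge (N : ℕ) (hN : 3 ≤ N) : 36 ≤ cN N := by
  have h : (12 : ℝ) ≤ 3 ^ N - 2 ^ (N + 1) + 1 ∧ (2 : ℝ) ^ (N + 1) ≤ 3 ^ N := by
    induction N, hN using Nat.le_induction with
    | base => norm_num
    | succ k _ ih =>
      obtain ⟨h1, h2⟩ := ih
      have a : (3 : ℝ) ^ (k + 1) = 3 * 3 ^ k := by ring
      have b : (2 : ℝ) ^ (k + 1 + 1) = 2 * 2 ^ (k + 1) := by ring
      rw [a, b]
      have := pow_pos (show (0 : ℝ) < 3 by norm_num) k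
      constructor <;> linarith
  unfold cN
  linarith [h.1]

/-- **PRN** -/
theorem prn (t3a : T3aStmt) : PrnStmt := by
  intro N hN
  have hc := cN_ge N hN
  obtain ⟨x, hx, hfix⟩ := exists_fix t3a (cN N) hc
  obtain ⟨w, hw⟩ : ∃ w : ℤ → ℝ, w = gg (eX + x) := ⟨_, rfl⟩
  have hwn : ∀ n, w n = e0 n + gg x n := fun n => by rw [hw, gg_w]
  have hT : ∀ n, T3 w w w n = gg (TT3 t3a (eX + x)) n := fun n => by
    unfold TT3
    rw [gg_MM, hw]
  have hev : ∀ n, w (-n) = w n := fun n => by rw [hw]; exact w_even hx n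
  have x0 : ∀ n, ¬ PP n → gg x n = 0 := fun n hn => by
    unfold gg
    rw [hx.2.2 n hn, zero_div]
  have h1 : w 1 = 1 := by
    rw [hwn, e0_one, x0 1 (fun h => absurd h.2 (by norm_num)), add_zero]
  have hm1 : w (-1) = 1 := by rw [hev, h1]
  have hsm : Summable fun n => |w n| * rr ^ n.natAbs := by
    rw [hw]
    exact gg_sm (eX + x)
  have hle : ∀ n, |w n| ≤ ‖eX + x‖ := fun n => by rw [hw]; exact gg_le _ n
  have hsw : Summable fun n => |w n| := by
    refine Summable.of_nonneg_of_le (fun _ => abs_nonneg _) (fun n => ?_) hsm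
    exact le_mul_of_one_le_right (abs_nonneg _) (wt1 n)
  have hsq : Summable fun n => w n ^ 2 := by
    refine Summable.of_nonneg_of_le (fun _ => sq_nonneg _) (fun n => ?_)
      (hsw.mul_left ‖eX + x‖)
    rw [← sq_abs, sq]
    exact mul_le_mul_of_nonneg_right (hle n) (abs_nonneg _)
  have hm : 2 ≤ ∑' q, w q ^ 2 := by
    have := hsq.sum_le_tsum {1, -1} (fun _ _ => sq_nonneg _)
    rw [Finset.sum_pair (by norm_num), h1, hm1] at this
    linarith
  have hA : (0 : ℝ) ≤ 2 ^ N - 1 := by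
    have := one_le_pow₀ (show (1 : ℝ) ≤ 2 by norm_num) (n := N)
    linarith
  refine ⟨w, cN N + T3 w w w 1 + 3 * (2 ^ N - 1) * ∑' q, w q ^ 2, rr, ?_, ?_, hev, ?_, h1, hsm, ?_,
    ?_⟩
  · unfold rr
    norm_num
  · have h2 := T_one t3a x hx
    rw [← hT] at h2
    nlinarith
  · intro n hn
    rw [hwn, x0 n (fun h => hn h.1), add_zero]
    refine e0_zero ?_ ?_
    · rintro rfl
      exact hn (by decide)
    · rintro rfl
      exact hn (by decide)
  · have h2 : ∑' n : ℤ, |w n| * rr ^ n.natAbs = ‖eX + x‖ := by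
      rw [← gg_nm, hw]
      rfl
    rw [h2]
    refine (norm_add_le _ _).trans ?_
    rw [norm_eX]
    linarith [hx.1]
  · intro n hn
    by_cases hp : PP n
    · have hb := bb_ge t3a (cN N) x hx.1
      have hb0 : bb t3a (cN N) x ≠ 0 := by
        have : 0 < bb t3a (cN N) x := by linarith
        exact this.ne'
      have e1 : bb t3a (cN N) x • x = Pi0 (TT3 t3a (eX + x)) + cN N • QQ x := by
        have : bb t3a (cN N) x • Ph t3a (cN N) x = Pi0 (TT3 t3a (eX + x)) + cN N • QQ x := by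
          unfold Ph
          rw [smul_smul, mul_inv_cancel₀ hb0, one_smul]
        rwa [hfix] at this
      have e2 := congrArg (fun u : X => u n) e1
      simp only [lp.coeFn_add, Pi.add_apply] at e2
      rw [smul_apply, smul_apply, QQ_apply, Pi0_pos _ hp] at e2
      have e3 : w n = x n / wt n := by
        rw [hwn, e0_zero, zero_add]
        · rfl
        · rintro rfl
          exact absurd hp.2 (by norm_num)
        · rintro rfl
          exact absurd hp.2 (by norm_num)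
      have e4 : T3 w w w n = (TT3 t3a (eX + x)) n / wt n := hT n
      have e5 : bb t3a (cN N) x = cN N + T3 w w w 1 := by
        unfold bb
        rw [hT]
      have wn := (wtp n).ne'
      have e6 : T3 w w w n + cN N * w n ^ 3 = (cN N + T3 w w w 1) * w n := by
        rw [← e5, e3, e4, mul_div_assoc', e2]
        field_simp
      linear_combination e6
    · have h3 : n = 1 ∨ n = -1 := by
        have : |n| < 3 := by
          by_contra h
          exact hp ⟨hn, not_lt.1 h⟩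
        rw [abs_lt] at this
        obtain ⟨k, hk⟩ := hn
        omega
      rcases h3 with rfl | rfl
      · rw [h1]
        ring
      · have : T3 w w w (-1) = T3 w w w 1 := T3_even w hev 1
        rw [this, hm1]
        ring

end

end Pool.Agent.BOX.H27
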